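import Mathlib
import Pool.Agent.H42.EV.Atom
import Pool.Agent.H54.EV.Two

/-! Linear subspaces of `ι → ℝ` which are closed under positive parts (sublattices): atoms, pairs. -/

open Module

namespace H30.EV

variable {ι : Type*} [Fintype ι]

/-- the atom at `i` (take `b ∈ V`, `b ≥ 0`, `b i = 1` with minimal support; if `c l ≠ b l * c i` for some
`c ∈ V` and `b l ≠ 0`, then with `d = (± (c - c i • b))⁺ ∈ V`, `d i = 0`, `d l > 0`, the vector
`(b - t d)⁺` has smaller support). -/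
theorem exists_atom (V : Submodule ℝ (ι → ℝ)) (hV : ∀ c ∈ V, (fun i => max (c i) 0) ∈ V) {i : ι}
    (hi : ∃ c ∈ V, c i ≠ 0) :
    ∃ b ∈ V, b i = 1 ∧ (∀ l, 0 ≤ b l) ∧ ∀ l, b l ≠ 0 → ∀ c ∈ V, c l = b l * c i := by
  exact H42.EV.exists_atom V hV hi

/-- many atoms with exactly two elements. (The classes = supports of atoms are disjoint, all have at
least two elements, there are `finrank V` of them, and their union is contained in `Q`:
`#pairs ≥ 3 finrank V - #Q`.) -/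
theorem exists_two (V : Submodule ℝ (ι → ℝ)) (hV : ∀ c ∈ V, (fun i => max (c i) 0) ∈ V)
    (h1 : ∀ b ∈ V, ∀ i, b i ≠ 0 → ∃ l, l ≠ i ∧ b l ≠ 0) (Q : Finset ι)
    (hQ : ∀ c ∈ V, ∀ i, i ∉ Q → c i = 0) {N : ℕ} (hN : Q.card + N ≤ 3 * finrank ℝ V) :
    ∃ (p q : Fin N → ι) (α β : Fin N → ℝ), Function.Injective p ∧ Function.Injective q ∧
      (∀ i j, p i ≠ q j) ∧ (∀ i, 0 < α i) ∧ (∀ i, 0 < β i) ∧
      (∀ i, ∃ b ∈ V, b (p i) = α i ∧ b (q i) = β i ∧ ∀ l, l ≠ p i → l ≠ q i → b l = 0) ∧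
      ∀ i, ∀ c ∈ V, β i * c (p i) = α i * c (q i) := by
  exact H54.EV.exists_two V hV h1 Q hQ hN

end H30.EV
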