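import Pool.Agent.H81.WK.FD

/-! Choice of the fully divisible subspace `F`. -/

set_option linter.unusedSectionVars false

open Module Submodule H15

namespace H30.EV

variable {I : Type*} [Fintype I] {E : Type*} [AddCommGroup E] [Module ℝ E]
  [FiniteDimensional ℝ E] {z : I → E} {k : ℕ}

/-- **choice of `F`** (strong induction on `finrank L`: if `L` is not rich pass to a subspace which misses
fewer than `2 (k + 1) ^ 2` elements; `H81.WK.fullyDiv_of_rich`). -/
theorem exists_full {L : Submodule ℝ E} (hL : finrank ℝ L ≤ k) (hz : ∀ i, z i ∈ L)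
    (hI : 2 * (k + 1) ^ 2 * k + k + 1 ≤ Fintype.card I) :
    ∃ F : Submodule ℝ E, F ≤ L ∧ FullyDiv z F ∧ k + 1 ≤ {i | z i ∈ F}.ncard := by
  classical
  have main : ∀ n : ℕ, n ≤ k → ∀ G : Submodule ℝ E, finrank ℝ G ≤ n →
      2 * (k + 1) ^ 2 * n + k + 1 ≤ {i | z i ∈ G}.ncard →
      ∃ F : Submodule ℝ E, F ≤ G ∧ FullyDiv z F ∧ k + 1 ≤ {i | z i ∈ F}.ncard := by
    intro n
    induction n with
    | zero =>
      intro _ G hG hc
      have hG0 : G = ⊥ := Submodule.finrank_eq_zero.1 (Nat.le_zero.1 hG)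
      refine ⟨G, le_rfl, H81.WK.fullyDiv_of_rich ?_, by omega⟩
      intro G' hG'
      rw [hG0] at hG'
      exact absurd hG' not_lt_bot
    | succ n ih =>
      intro hn G hG hc
      by_cases hr : ∀ G' : Submodule ℝ E, G' < G →
          {i | z i ∈ G'}.ncard + 2 * (finrank ℝ G + 1) ^ 2 ≤ {i | z i ∈ G}.ncard
      · exact ⟨G, le_rfl, H81.WK.fullyDiv_of_rich hr, by omega⟩
      · push Not at hr
        obtain ⟨G', hG', hlt⟩ := hr
        have h1 : finrank ℝ G' < finrank ℝ G := Submodule.finrank_lt_finrank_of_lt hG'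
        have h2 : 2 * (finrank ℝ G + 1) ^ 2 ≤ 2 * (k + 1) ^ 2 := by
          have : finrank ℝ G + 1 ≤ k + 1 := by omega
          exact Nat.mul_le_mul_left 2 (Nat.pow_le_pow_left this 2)
        have h3 : 2 * (k + 1) ^ 2 * (n + 1) = 2 * (k + 1) ^ 2 * n + 2 * (k + 1) ^ 2 := by ring
        obtain ⟨F, hF, hd, hk⟩ := ih (by omega) G' (by omega) (by omega)
        exact ⟨F, hF.trans hG'.le, hd, hk⟩
  refine main k le_rfl L hL ?_
  have : {i | z i ∈ L} = Set.univ := Set.eq_univ_of_forall hz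
  rw [this, Set.ncard_univ, Nat.card_eq_fintype_card]
  exact hI

end H30.EV
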