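import Pool.Agent.H30.DV.Assemble

/-!
# MP_19149c_co: `n(k, d + 1) = n(k, d) + 2` for all `d ≥ 2 (k + 1) ^ 3`.

Definitions. `Pairs`: a system of antipodal series pairs `{p i, q i}` of a family `v`: the functional
`φ i` vanishes on all members of the family except `p i` (value `β i > 0`) and `q i` (value `- α i < 0`);
`zz i = α i v (p i) + β i v (q i)` is in the kernel of `φ i`.
-/

set_option linter.unusedSectionVars false

open Module Submodule H15

namespace H30.EV

variable {ι : Type*} [Fintype ι] {E : Type*} [AddCommGroup E] [Module ℝ E]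
  [FiniteDimensional ℝ E] {I : Type*}

/-- a system of antipodal series pairs. -/
structure Pairs (v : ι → E) (p q : I → ι) (α β : I → ℝ) (φ : I → (E →ₗ[ℝ] ℝ)) : Prop where
  hp : Function.Injective p
  hq : Function.Injective q
  hpq : ∀ i j, p i ≠ q j
  hα : ∀ i, 0 < α i
  hβ : ∀ i, 0 < β i
  fp : ∀ i, φ i (v (p i)) = β i
  fq : ∀ i, φ i (v (q i)) = - α i
  f0 : ∀ i l, l ≠ p i → l ≠ q i → φ i (v l) = 0

/-- the vector of a pair. -/
def zz (v : ι → E) (p q : I → ι) (α β : I → ℝ) (i : I) : E := α i • v (p i) + β i • v (q i)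

/-- the new family: a pair over `z`. -/
noncomputable def dup (v : ι → E) (z : E) : ι ⊕ Bool → E × ℝ :=
  Sum.elim (fun i => (v i, 0)) (fun b => ((1 / 2 : ℝ) • z, if b then 1 else -1))

end H30.EV
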