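import Pool.Agent.H30.EV.Defs
import Pool.Agent.H9.EV.Dup

/-! Adding a pair over a vector `z'` of a subspace which is fully divisible by pairs does not increase
the maximal rank. -/

set_option linter.unusedSectionVars false

open Module Submodule H15

namespace H30.EV

variable {ι : Type*} [Fintype ι] {E : Type*} [AddCommGroup E] [Module ℝ E]
  [FiniteDimensional ℝ E] {I : Type*} [Fintype I] {v : ι → E} {p q : I → ι} {α β : I → ℝ}
  {φ : I → (E →ₗ[ℝ] ℝ)} {k : ℕ}

/-- a dependency of the vectors `zz` gives one of `v`. -/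
theorem svec_of_zz (hP : Pairs v p q α β φ) {X Y : Set I} (h : SVec (zz v p q α β) X Y) :
    SVec v (p '' X ∪ q '' X) (p '' Y ∪ q '' Y) :=
  H9.EV.svec_of_zz hP h

/-- **the new family is bounded.** -/
theorem bdd_dup (hP : Pairs v p q α β φ) (hb : Bdd v k) {F : Submodule ℝ E}
    (hF : FullyDiv (zz v p q α β) F) {z : E} (hz : z ∈ F) : Bdd (dup v z) k :=
  H9.EV.bdd_dup hP hb hF hz

end H30.EV
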