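import Pool.Agent.H30.EV.Defs

/-! The new family is good, for a generic vector of `F`. -/

set_option linter.unusedSectionVars false

open Module Submodule H15 H30.DV

namespace H30.EV

variable {ι : Type*} [Fintype ι] {E : Type*} [AddCommGroup E] [Module ℝ E]
  [FiniteDimensional ℝ E] {I : Type*} [Fintype I] {v : ι → E} {p q : I → ι} {α β : I → ℝ}
  {φ : I → (E →ₗ[ℝ] ℝ)} {k : ℕ}

/-- a generic vector of `F` with a given positive value (`H15.exists_generic` in the space `F`). -/
theorem exists_generic_vec (v : ι → E) (h : E →ₗ[ℝ] ℝ) {F : Submodule ℝ E} (hF : ∃ x ∈ F, h x ≠ 0) :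
    ∃ z ∈ F, h z = 2 ∧ ∀ S : Set ι, z ∈ sp v S → F ≤ sp v S := by
  classical
  obtain ⟨x, hxF, hx⟩ := hF
  have hx0 : (⟨x, hxF⟩ : F) ≠ 0 := by
    intro h0
    have h1 : x = 0 := congrArg Subtype.val h0
    exact hx (by rw [h1, map_zero])
  obtain ⟨z0, hz0⟩ := exists_generic (V := F) (κ := Option (Set ι))
    (fun o => match o with
      | none => LinearMap.ker (h.comp F.subtype)
      | some S => if F ≤ sp v S then ⊥ else (sp v S).comap F.subtype) (by
    intro o
    match o with
    | none =>
      intro htop
      have htop : LinearMap.ker (h.comp F.subtype) = ⊤ := htop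
      have h1 : (⟨x, hxF⟩ : F) ∈ LinearMap.ker (h.comp F.subtype) := by rw [htop]; trivial
      exact hx (LinearMap.mem_ker.1 h1)
    | some S =>
      by_cases hS : F ≤ sp v S
      · simp only [hS, if_true]
        intro htop
        have h1 : (⟨x, hxF⟩ : F) ∈ (⊥ : Submodule ℝ F) := by rw [htop]; trivial
        exact hx0 ((Submodule.mem_bot ℝ).1 h1)
      · simp only [hS, if_false]
        intro htop
        refine hS fun y hy => ?_
        have h1 : (⟨y, hy⟩ : F) ∈ (sp v S).comap F.subtype := by rw [htop]; trivial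
        exact h1)
  have hne : h (z0 : E) ≠ 0 := by
    intro h0
    exact hz0 none (LinearMap.mem_ker.2 h0)
  refine ⟨(2 / h (z0 : E)) • (z0 : E), F.smul_mem _ z0.2, ?_, ?_⟩
  · rw [map_smul, smul_eq_mul]
    field_simp
  · intro S hS
    by_contra hcon
    have h1 := hz0 (some S)
    simp only [hcon, if_false] at h1
    apply h1
    have h2 : (z0 : E) = (h (z0 : E) / 2) • ((2 / h (z0 : E)) • (z0 : E)) := by
      rw [smul_smul]
      have : h (z0 : E) / 2 * (2 / h (z0 : E)) = 1 := by field_simp
      rw [this, one_smul]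
    change (z0 : E) ∈ sp v S
    rw [h2]
    exact (sp v S).smul_mem _ hS

/-- the members `v (p i)` of different pairs are independent. -/
theorem linInd_p (hP : Pairs v p q α β φ) (s : Set I) :
    LinearIndependent ℝ (fun i : s => v (p i)) := by
  classical
  have : Fintype s := Fintype.ofFinite s
  rw [Fintype.linearIndependent_iff]
  intro g hg j
  have h1 := congrArg (φ j) hg
  rw [map_sum, map_zero, Finset.sum_eq_single j] at h1
  · rw [map_smul, hP.fp, smul_eq_mul] at h1
    rcases mul_eq_zero.1 h1 with h2 | h2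
    · exact h2
    · exact absurd h2 (hP.hβ j).ne'
  · intro i _ hij
    rw [map_smul, hP.f0 j (p i) (fun h => hij (Subtype.ext (hP.hp h))) (hP.hpq i j), smul_zero]
  · intro h2
    exact absurd (Finset.mem_univ j) h2

/-- **flat condition of the new family.** -/
theorem fc_dup (hP : Pairs v p q α β φ) {F : Submodule ℝ E}
    (hk : k + 1 ≤ {i | zz v p q α β i ∈ F}.ncard)
    (hfc : ∀ G : Submodule ℝ E, finrank ℝ G ≤ k + 1 → {i | v i ∈ G}.ncard ≤ k + finrank ℝ G)
    {z : E} (_hz : z ∈ F) (hgen : ∀ S : Set ι, z ∈ sp v S → F ≤ sp v S) :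
    ∀ G : Submodule ℝ (E × ℝ), finrank ℝ G ≤ k + 1 →
      {i | dup v z i ∈ G}.ncard ≤ k + finrank ℝ G := by
  classical
  intro G hG
  set G0 : Submodule ℝ E := G.comap (LinearMap.inl ℝ E ℝ) with hG0
  have hmemG0 : ∀ x : E, x ∈ G0 ↔ (x, (0 : ℝ)) ∈ G := fun x => Iff.rfl
  set S : Set ι := {i | v i ∈ G0} with hS
  set B : Set Bool := {b | ((1 / 2 : ℝ) • z, if b then (1 : ℝ) else -1) ∈ G} with hB
  have hle : G0.map (LinearMap.inl ℝ E ℝ) ≤ G := by
    rintro _ ⟨x, hx, rfl⟩
    exact hx
  have hfin : finrank ℝ (G0.map (LinearMap.inl ℝ E ℝ)) = finrank ℝ G0 :=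
    ((Submodule.equivMapOfInjective (LinearMap.inl ℝ E ℝ) LinearMap.inl_injective G0).finrank_eq).symm
  have hG0le : finrank ℝ G0 ≤ finrank ℝ G := by
    rw [← hfin]
    exact Submodule.finrank_mono hle
  have hcount : {i | dup v z i ∈ G}.ncard ≤ S.ncard + B.ncard := by
    have h1 : {i | dup v z i ∈ G} ⊆ Sum.inl '' S ∪ Sum.inr '' B := by
      rintro (i | b) hi
      · exact Or.inl ⟨i, hi, rfl⟩
      · exact Or.inr ⟨b, hi, rfl⟩
    calc {i | dup v z i ∈ G}.ncard ≤ (Sum.inl '' S ∪ Sum.inr '' B : Set (ι ⊕ Bool)).ncard :=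
          Set.ncard_le_ncard h1 (Set.toFinite _)
      _ ≤ (Sum.inl '' S : Set (ι ⊕ Bool)).ncard + (Sum.inr '' B : Set (ι ⊕ Bool)).ncard :=
          Set.ncard_union_le _ _
      _ = S.ncard + B.ncard := by
          rw [Set.ncard_image_of_injective _ Sum.inl_injective,
            Set.ncard_image_of_injective _ Sum.inr_injective]
  have hS1 : S.ncard ≤ k + finrank ℝ G0 := hfc G0 (hG0le.trans hG)
  by_cases hB0 : B = ∅
  · rw [hB0, Set.ncard_empty] at hcount
    omega
  obtain ⟨b0, hb0⟩ := Set.nonempty_iff_ne_empty.2 hB0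
  have hlt : finrank ℝ G0 < finrank ℝ G := by
    rw [← hfin]
    refine Submodule.finrank_lt_finrank_of_lt (lt_of_le_of_ne hle fun heq => ?_)
    have h1 : ((1 / 2 : ℝ) • z, if b0 then (1 : ℝ) else -1) ∈ G0.map (LinearMap.inl ℝ E ℝ) := by
      rw [heq]; exact hb0
    obtain ⟨x, _, hx⟩ := h1
    have h2 := congrArg Prod.snd hx
    simp only [LinearMap.inl_apply] at h2
    cases b0
    · simp at h2
    · simp at h2
  by_cases hB2 : true ∈ B ∧ false ∈ B
  · -- both new members are in `G`
    have hBc : B.ncard ≤ 2 := by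
      calc B.ncard ≤ (Set.univ : Set Bool).ncard := Set.ncard_le_ncard (Set.subset_univ _) (Set.toFinite _)
        _ = 2 := by rw [Set.ncard_univ]; simp
    have hzG0 : z ∈ G0 := by
      rw [hmemG0]
      have h1 := G.add_mem hB2.1 hB2.2
      have h2 : (((1 / 2 : ℝ) • z, if (true : Bool) then (1 : ℝ) else -1) : E × ℝ) +
          ((1 / 2 : ℝ) • z, if (false : Bool) then (1 : ℝ) else -1) = (z, 0) := by
        refine Prod.ext ?_ ?_
        · simp only [Prod.fst_add]
          rw [← add_smul]
          norm_num
        · simp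
      rw [h2] at h1
      exact h1
    have hkey : S.ncard + 1 ≤ k + finrank ℝ G0 := by
      have hspG0 : sp v S ≤ G0 := sp_le.2 fun i hi => hi
      by_cases hzS : z ∈ sp v S
      · have hFG0 : F ≤ G0 := (hgen S hzS).trans hspG0
        -- some pair over `F` is not in `G0`
        obtain ⟨i, hiF, hip⟩ : ∃ i, zz v p q α β i ∈ F ∧ v (p i) ∉ G0 := by
          by_contra hcon
          push Not at hcon
          have : Fintype {i | zz v p q α β i ∈ F} := Fintype.ofFinite _
          have hli := linInd_p hP {i | zz v p q α β i ∈ F}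
          have hli2 : LinearIndependent ℝ
              (fun i : {i | zz v p q α β i ∈ F} => (⟨v (p i), hcon i i.2⟩ : G0)) :=
            LinearIndependent.of_comp G0.subtype hli
          have h1 := hli2.fintype_card_le_finrank
          rw [← Nat.card_eq_fintype_card, Nat.card_coe_set_eq] at h1
          omega
        have hiq : v (q i) ∉ G0 := by
          intro hq
          apply hip
          have h1 : zz v p q α β i ∈ G0 := hFG0 hiF
          have h2 : α i • v (p i) = zz v p q α β i - β i • v (q i) := by
            unfold zz; abel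
          have h3 : α i • v (p i) ∈ G0 := by
            rw [h2]; exact G0.sub_mem h1 (G0.smul_mem _ hq)
          have h4 : v (p i) = (α i)⁻¹ • (α i • v (p i)) := by
            rw [smul_smul, inv_mul_cancel₀ (hP.hα i).ne', one_smul]
          rw [h4]
          exact G0.smul_mem _ h3
        set G1 : Submodule ℝ E := G0 ⊔ span ℝ {v (p i)} with hG1
        have hpG1 : v (p i) ∈ G1 :=
          (le_sup_right : span ℝ {v (p i)} ≤ G1) (mem_span_singleton_self _)
        have hqG1 : v (q i) ∈ G1 := by
          have h1 : zz v p q α β i ∈ G1 := (le_sup_left : G0 ≤ G1) (hFG0 hiF)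
          have h2 : β i • v (q i) = zz v p q α β i - α i • v (p i) := by
            unfold zz; abel
          have h3 : β i • v (q i) ∈ G1 := by
            rw [h2]; exact G1.sub_mem h1 (G1.smul_mem _ hpG1)
          have h4 : v (q i) = (β i)⁻¹ • (β i • v (q i)) := by
            rw [smul_smul, inv_mul_cancel₀ (hP.hβ i).ne', one_smul]
          rw [h4]
          exact G1.smul_mem _ h3
        have hG1r : finrank ℝ G1 ≤ finrank ℝ G0 + 1 := by
          have h1 := Submodule.finrank_add_le_finrank_add_finrank G0 (span ℝ {v (p i)})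
          have h2 := finrank_span_le_card (R := ℝ) ({v (p i)} : Set E)
          simp only [Set.toFinset_singleton, Finset.card_singleton] at h2
          rw [hG1]
          omega
        have h5 := hfc G1 (by omega)
        have h6 : insert (p i) (insert (q i) S) ⊆ {l | v l ∈ G1} := by
          intro l hl
          rcases hl with rfl | rfl | hl
          · exact hpG1
          · exact hqG1
          · exact (le_sup_left : G0 ≤ G1) hl
        have h7 := Set.ncard_le_ncard h6 (Set.toFinite _)
        have hqS : q i ∉ S := hiq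
        have hpS : p i ∉ insert (q i) S := by
          intro h
          rcases h with h | h
          · exact hP.hpq i i h
          · exact hip h
        rw [Set.ncard_insert_of_notMem hpS (Set.toFinite _),
          Set.ncard_insert_of_notMem hqS (Set.toFinite _)] at h7
        omega
      · have h1 : sp v S < G0 := lt_of_le_of_ne hspG0 fun h => hzS (by rw [h]; exact hzG0)
        have h2 := Submodule.finrank_lt_finrank_of_lt h1
        have h3 := hfc (sp v S) (by omega)
        have h4 : S ⊆ {i | v i ∈ sp v S} := fun i hi => mem_sp hi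
        have h5 := Set.ncard_le_ncard h4 (Set.toFinite _)
        omega
    omega
  · have hB1 : B.ncard ≤ 1 := by
      rw [Set.ncard_le_one (Set.toFinite _)]
      intro a ha b hb
      cases a <;> cases b
      · rfl
      · exact absurd ⟨hb, ha⟩ hB2
      · exact absurd ⟨ha, hb⟩ hB2
      · rfl
    omega

/-- the new family is injective. -/
theorem inj_dup (hv : Function.Injective v) (z : E) : Function.Injective (dup v z) := by
  rintro (a | a) (b | b) h
  · exact congrArg Sum.inl (hv (congrArg Prod.fst h))
  · have h1 := congrArg Prod.snd h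
    cases b <;> simp [dup] at h1
  · have h1 := congrArg Prod.snd h
    cases a <;> simp [dup] at h1
  · have h1 := congrArg Prod.snd h
    cases a <;> cases b
    · rfl
    · simp [dup] at h1; norm_num at h1
    · simp [dup] at h1; norm_num at h1
    · rfl

end H30.EV
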