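import Pool.Agent.H30.EV.Defs
import Pool.Agent.H65.LN.Trans
import Pool.Agent.H85.EV.Extremal

/-! From families to points and back. -/

set_option linter.unusedSectionVars false

open Module Submodule H15

namespace H30.EV

/-- **a family gives a lower bound** (`H65.LN.exists_chart`, `not_divisible`, `flatCondition`). -/
theorem card_lt_nDiv {ι : Type*} [Fintype ι] {E : Type*} [AddCommGroup E] [Module ℝ E]
    [FiniteDimensional ℝ E] {v : ι → E} {k d : ℕ} (hkd : k ≤ d) (hE : finrank ℝ E ≤ d + 1)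
    (h : E →ₗ[ℝ] ℝ) (h1 : ∀ i, h (v i) = 1) (hinj : Function.Injective v)
    (hfc : ∀ G : Submodule ℝ E, finrank ℝ G ≤ k + 1 → {i | v i ∈ G}.ncard ≤ k + finrank ℝ G)
    (hb : Bdd v k) : Fintype.card ι < nDiv k d := by
  classical
  -- the empty family
  rcases isEmpty_or_nonempty ι with hι | ⟨⟨i0⟩⟩
  · rw [Fintype.card_eq_zero]
    by_contra hcon
    push Not at hcon
    have hz : nDiv k d = 0 := by omega
    have h2 := (nDiv_isLeast hkd).1 ∅ (by rw [hz]; exact Nat.zero_le _) (by
      rintro ⟨F, T, hFne, hF, hTS, hcard, hTF⟩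
      have : T = ∅ := by
        rw [← Finset.subset_empty]
        exact_mod_cast hTS
      rw [this, Finset.card_empty] at hcard
      omega)
    obtain ⟨A, B, hAB, hU, hdim⟩ := h2
    have hA : A = ∅ := by
      rw [← Finset.coe_eq_empty]
      have : (A : Set (EuclideanSpace ℝ (Fin d))) ⊆ ∅ := by
        intro x hx
        have hx' : x ∈ (A : Set (EuclideanSpace ℝ (Fin d))) ∪ B := Or.inl hx
        rw [hU] at hx'
        simpa using hx'
      exact Set.subset_empty_iff.1 this
    unfold H15.convDim at hdim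
    rw [hA] at hdim
    simp at hdim
    omega
  · -- a chart
    let V := E × (Fin (d + 1 - finrank ℝ E) → ℝ)
    have hV : finrank ℝ V = d + 1 := by
      change finrank ℝ (E × (Fin (d + 1 - finrank ℝ E) → ℝ)) = d + 1
      rw [Module.finrank_prod, Module.finrank_fin_fun]
      omega
    let Ψ : V →ₗ[ℝ] ℝ := h.comp (LinearMap.fst ℝ E (Fin (d + 1 - finrank ℝ E) → ℝ))
    have hΨ : Ψ ≠ 0 := by
      intro h0
      have h2 : Ψ (v i0, 0) = 1 := h1 i0
      rw [h0, LinearMap.zero_apply] at h2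
      exact zero_ne_one h2
    obtain ⟨Φ0, hΦ0, hΦ02⟩ := H65.LN.exists_chart hV Ψ hΨ
    let Φ : E →ₗ[ℝ] (EuclideanSpace ℝ (Fin d) × ℝ) :=
      Φ0.comp (LinearMap.inl ℝ E (Fin (d + 1 - finrank ℝ E) → ℝ))
    have hΦ : Function.Injective Φ := hΦ0.comp LinearMap.inl_injective
    have hΦ2 : ∀ x, (Φ x).2 = h x := fun x => hΦ02 _
    let u : ι → EuclideanSpace ℝ (Fin d) := fun i => (Φ (v i)).1
    have hu1 : ∀ i, ((u i, (1 : ℝ)) : EuclideanSpace ℝ (Fin d) × ℝ) = Φ (v i) := by
      intro i
      rw [Prod.ext_iff]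
      exact ⟨rfl, by rw [hΦ2, h1]⟩
    have hlsp : ∀ X : Set ι, H65.LN.lsp u X = (sp v X).map Φ := by
      intro X
      unfold H65.LN.lsp sp
      rw [Submodule.map_span, ← Set.image_comp]
      congr 1
      refine Set.image_congr fun i _ => hu1 i
    have hinjmap : ∀ W : Submodule ℝ E, finrank ℝ (W.map Φ) = finrank ℝ W :=
      fun W => ((Submodule.equivMapOfInjective Φ hΦ W).finrank_eq).symm
    have hu : Function.Injective u := by
      intro i j hij
      apply hinj
      apply hΦ
      rw [← hu1, ← hu1, hij]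
    let S : Finset (EuclideanSpace ℝ (Fin d)) := Finset.univ.map ⟨u, hu⟩
    have hS : ∀ x, x ∈ S ↔ ∃ i, u i = x := by
      intro x
      simp [S]
    have hcard : S.card = Fintype.card ι := by
      simp [S]
    by_contra hcon
    push Not at hcon
    refine H65.LN.not_divisible u hu S hS ?_ ((H15.nDiv_isLeast hkd).1 S (by omega)
      (H65.LN.flatCondition u hu S hS ?_))
    · intro c hc
      have h3 : ∑ i, c i • v i = 0 := by
        apply hΦ
        rw [map_sum, map_zero, ← hc]
        refine Finset.sum_congr rfl fun i _ => ?_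
        rw [map_smul, hu1]
      have h4 := hb {i | 0 < c i} {i | c i < 0} ⟨c, h3, fun i => Iff.rfl, fun i => Iff.rfl⟩
      rw [hlsp, hlsp, ← Submodule.map_inf Φ hΦ, hinjmap]
      exact h4
    · intro X hX
      rw [hlsp, hinjmap] at hX
      have h3 := hfc _ hX
      have h4 : X.card ≤ {i | v i ∈ sp v (X : Set ι)}.ncard := by
        rw [← Set.ncard_coe_finset]
        exact Set.ncard_le_ncard (fun i hi => mem_sp hi) (Set.toFinite _)
      omega

/-- **an extremal family.** -/
theorem exists_extremal {k d : ℕ} (hk : 1 ≤ k) (hkd : k + 1 ≤ d) :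
    ∃ (ι : Type) (_ : Fintype ι) (E : Type) (_ : AddCommGroup E) (_ : Module ℝ E)
      (_ : FiniteDimensional ℝ E) (v : ι → E) (h : E →ₗ[ℝ] ℝ), finrank ℝ E = d + 1 ∧
      Fintype.card ι + 1 = nDiv k d ∧ (∀ i, h (v i) = 1) ∧ Function.Injective v ∧
      (∀ G : Submodule ℝ E, finrank ℝ G ≤ k + 1 → {i | v i ∈ G}.ncard ≤ k + finrank ℝ G) ∧
      Bdd v k := H85.EV.exists_extremal hk hkd

end H30.EV
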