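import Pool.Agent.H30.EV.Union3
import Pool.Agent.H15.FamSmall

/-!
Three disjoint bases: a subspace whose elements contain three disjoint spanning sets is fully divisible.
-/

set_option linter.unusedSectionVars false

open Module Submodule H15

namespace H30.EV

variable {ι : Type*} [Fintype ι] {E : Type*} [AddCommGroup E] [Module ℝ E]
  [FiniteDimensional ℝ E]

/-- **three disjoint spanning sets.** -/
theorem fullyDiv_of_three {v : ι → E} {F : Submodule ℝ E} {X Y W : Set ι} (hXY : Disjoint X Y)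
    (hXW : Disjoint X W) (hYW : Disjoint Y W) (hX : sp v X = F) (hY : sp v Y = F)
    (hW : sp v W = F) : FullyDiv v F := by
  classical
  -- the sum over `X` minus the sum over `Y` lies in the span of `W`
  let s : ι → ℝ := fun i => if i ∈ X then 1 else if i ∈ Y then -1 else 0
  have hs : ∑ i, s i • v i ∈ F := by
    refine Submodule.sum_mem _ fun i _ => ?_
    by_cases h1 : i ∈ X
    · exact Submodule.smul_mem _ _ (hX ▸ mem_sp h1)
    · by_cases h2 : i ∈ Y
      · exact Submodule.smul_mem _ _ (hY ▸ mem_sp h2)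
      · have : s i = 0 := by simp [s, h1, h2]
        rw [this, zero_smul]
        exact Submodule.zero_mem _
  rw [← hW] at hs
  obtain ⟨a, ha0, ha⟩ := mem_sp_iff.1 hs
  have hsX : ∀ i ∈ X, s i - a i = 1 := by
    intro i hi
    have h1 : i ∉ W := Set.disjoint_left.1 hXW hi
    rw [ha0 i h1]
    simp [s, hi]
  have hsY : ∀ i ∈ Y, s i - a i = -1 := by
    intro i hi
    have h1 : i ∉ W := Set.disjoint_left.1 hYW hi
    have h2 : i ∉ X := Set.disjoint_right.1 hXY hi
    rw [ha0 i h1]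
    simp [s, hi, h2]
  have hs0 : ∀ i, i ∉ X → i ∉ Y → i ∉ W → s i - a i = 0 := by
    intro i h1 h2 h3
    rw [ha0 i h3]
    simp [s, h1, h2]
  have hF : ∀ i, s i - a i ≠ 0 → v i ∈ F := by
    intro i hi
    by_cases h1 : i ∈ X
    · exact hX ▸ mem_sp h1
    by_cases h2 : i ∈ Y
    · exact hY ▸ mem_sp h2
    by_cases h3 : i ∈ W
    · exact hW ▸ mem_sp h3
    exact absurd (hs0 i h1 h2 h3) hi
  refine ⟨{i | 0 < s i - a i}, {i | s i - a i < 0}, ⟨fun i => s i - a i, ?_, fun i => Iff.rfl,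
    fun i => Iff.rfl⟩, ?_, ?_⟩
  · simp only [sub_smul, Finset.sum_sub_distrib]
    rw [ha, sub_self]
  · refine le_antisymm (sp_le.2 fun i hi => hF i (ne_of_gt hi)) ?_
    rw [← hX]
    exact sp_mono fun i hi => by
      change 0 < s i - a i
      rw [hsX i hi]; norm_num
  · refine le_antisymm (sp_le.2 fun i hi => hF i (ne_of_lt hi)) ?_
    rw [← hY]
    exact sp_mono fun i hi => by
      change s i - a i < 0
      rw [hsY i hi]; norm_num

/-- **linear richness**: every subspace `G` of `F` misses at least `3 (dim F - dim G)` elements. -/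
theorem fullyDiv_of_rich3 {v : ι → E} {F : Submodule ℝ E}
    (h : ∀ G : Submodule ℝ E, G ≤ F →
      {i | v i ∈ G}.ncard + 3 * finrank ℝ F ≤ {i | v i ∈ F}.ncard + 3 * finrank ℝ G) :
    FullyDiv v F := by
  classical
  let I : Finset ι := Finset.univ.filter fun i => v i ∈ F
  have hI : ∀ i, i ∈ I ↔ v i ∈ F := fun i => by simp [I]
  have hIc : I.card = {i | v i ∈ F}.ncard := by
    rw [← Set.ncard_coe_finset]
    congr 1
    ext i
    simp [I]
  obtain ⟨X, Y, W, Z, d1, d2, d3, hu, hZ, hr⟩ := union_rank3 v I.card I rfl ⊥ ⊥ ⊥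
  have e0 : ∀ G : Submodule ℝ E, finrank ℝ (⊥ ⊔ G : Submodule ℝ E) = finrank ℝ G :=
    fun G => by rw [bot_sup_eq]
  rw [e0, e0, e0, e0] at hr
  have hX : X ⊆ I := hu ▸ (Finset.subset_union_left.trans Finset.subset_union_left)
  have hY : Y ⊆ I := hu ▸ (Finset.subset_union_right.trans Finset.subset_union_left)
  have hW : W ⊆ I := hu ▸ Finset.subset_union_right
  have hle : ∀ Q : Finset ι, Q ⊆ I → sp v (Q : Set ι) ≤ F := fun Q hQ =>
    sp_le.2 fun i hi => (hI i).1 (hQ hi)
  have h1 := h (sp v (Z : Set ι)) (hle Z hZ)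
  have h2 : Z.card ≤ {i | v i ∈ sp v (Z : Set ι)}.ncard := by
    rw [← Set.ncard_coe_finset]
    exact Set.ncard_le_ncard (fun i hi => mem_sp hi) (Set.toFinite _)
  have h3 : (I \ Z).card + Z.card = I.card := Finset.card_sdiff_add_card_eq_card hZ
  have hle' : ∀ Q : Finset ι, Q ⊆ I → finrank ℝ (sp v (Q : Set ι)) ≤ finrank ℝ F := fun Q hQ =>
    Submodule.finrank_mono (hle Q hQ)
  have h4 := hle' X hX
  have h5 := hle' Y hY
  have h6 := hle' W hW
  exact fullyDiv_of_three (X := (X : Set ι)) (Y := (Y : Set ι)) (W := (W : Set ι))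
    (Finset.disjoint_coe.2 d1) (Finset.disjoint_coe.2 d2) (Finset.disjoint_coe.2 d3)
    (eq_of_le_of_finrank_le (hle X hX) (by omega)) (eq_of_le_of_finrank_le (hle Y hY) (by omega))
    (eq_of_le_of_finrank_le (hle W hW) (by omega))

/-- **choice of `F`**: if `3 dim L` is less than the number of elements of `L` then some nonzero
subspace of `L` is fully divisible and `#F - 3 dim F ≥ #L - 3 dim L`. -/
theorem exists_full3 (v : ι → E) (L : Submodule ℝ E) :
    ∃ F : Submodule ℝ E, F ≤ L ∧ FullyDiv v F ∧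
      {i | v i ∈ L}.ncard + 3 * finrank ℝ F ≤ {i | v i ∈ F}.ncard + 3 * finrank ℝ L := by
  classical
  have hcard : ∀ F : Submodule ℝ E, {i | v i ∈ F}.ncard ≤ Fintype.card ι := by
    intro F
    rw [← Nat.card_eq_fintype_card, ← Set.ncard_univ]
    exact Set.ncard_le_ncard (Set.subset_univ _) (Set.toFinite _)
  let m : Submodule ℝ E → ℕ := fun F => Fintype.card ι + 3 * finrank ℝ F - {i | v i ∈ F}.ncard
  have hex : ∃ n : ℕ, ∃ F : Submodule ℝ E, F ≤ L ∧ m F = n := ⟨m L, L, le_rfl, rfl⟩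
  obtain ⟨F, hFL, hFn⟩ := Nat.find_spec hex
  have hmin : ∀ G : Submodule ℝ E, G ≤ L → {i | v i ∈ G}.ncard + 3 * finrank ℝ F ≤
      {i | v i ∈ F}.ncard + 3 * finrank ℝ G := by
    intro G hG
    have h1 : Nat.find hex ≤ m G := Nat.find_min' hex ⟨G, hG, rfl⟩
    rw [← hFn] at h1
    simp only [m] at h1
    have h2 := hcard F
    have h3 := hcard G
    omega
  exact ⟨F, hFL, fullyDiv_of_rich3 fun G hG => hmin G (hG.trans hFL), hmin L le_rfl⟩

end H30.EV
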