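import Pool.Agent.H30.EV.Struct
import Pool.Agent.H30.EV.Three
import Pool.Agent.H30.EV.Dup
import Pool.Agent.H30.EV.DupGood
import Pool.Agent.H30.EV.Points

/-! Assembly. -/

set_option linter.unusedSectionVars false

open Module Submodule H15

namespace H30.EV

/-- a cosimple family has at most `finrank E + 3 k` members. -/
theorem card_le_of_cosimple {ι : Type*} [Fintype ι] [Nonempty ι] {E : Type*} [AddCommGroup E]
    [Module ℝ E] [FiniteDimensional ℝ E] {v : ι → E} {k : ℕ} (hc : Cosimple v) (hb : Bdd v k)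
    (hfc : ∀ G : Submodule ℝ E, finrank ℝ G ≤ k + 1 → {i | v i ∈ G}.ncard ≤ k + finrank ℝ G) :
    Fintype.card ι ≤ finrank ℝ E + 3 * k := by
  obtain ⟨m, A, B, hF⟩ := exists_maxFrame hc
  have hm : m ≤ k := by
    have := hb _ _ hF.svec
    rwa [hF.rank] at this
  have h1 := hF.compl
  have h2 : (A ∪ B)ᶜ ⊆ {i | v i ∈ LL v A B} := fun i hi =>
    hF.zero (fun h => hi (Or.inl h)) (fun h => hi (Or.inr h))
  have h3 := Set.ncard_le_ncard h2 (Set.toFinite _)
  have h4 := hfc (LL v A B) (by rw [hF.rank]; omega)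
  rw [hF.rank] at h4
  omega

/-- `n(k, d + 1) ≤ n(k, d) + 2` for `d ≥ 3 k`. -/
theorem succ_le {k d : ℕ} (hk : 1 ≤ k) (hd : 3 * k ≤ d) : nDiv k (d + 1) ≤ nDiv k d + 2 := by
  classical
  obtain ⟨ι, _, E, _, _, _, v, h, hE, hcard, h1, hinj, hfc, hb⟩ :=
    exists_extremal (k := k) (d := d + 1) hk (by omega)
  have h2 := le_nDiv (k := k) (d := d + 1) hk (by omega)
  have hne : Nonempty ι := by rw [← Fintype.card_pos_iff]; omega
  by_cases hc : Cosimple v
  · have := card_le_of_cosimple hc hb hfc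
    omega
  · unfold Cosimple at hc
    push Not at hc
    obtain ⟨i, j, hij⟩ := hc
    set J : Set ι := {i, j}ᶜ with hJ
    have hmem : ∀ l ∈ J, v l ∈ sp v J := fun l hl => mem_sp hl
    have h3 := card_lt_nDiv (v := H15.sub v (sp v J) J hmem) (k := k) (d := d) (by omega) (by
        have := Submodule.finrank_lt (lt_top_iff_ne_top.2 hij).ne
        omega) (h.comp (sp v J).subtype) (fun l => h1 l) (by
        intro a b hab
        have h4 : v a = v b := congrArg Subtype.val hab
        exact Subtype.ext (hinj h4)) (fun G' hG' => H30.DV.sub_cnt hfc G' hG')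
        (H30.DV.bdd_sub hb hmem)
    have h5 := Set.ncard_add_ncard_compl ({i, j} : Set ι)
    rw [Nat.card_eq_fintype_card] at h5
    have h6 : ({i, j} : Set ι).ncard ≤ 2 := by
      have := Set.ncard_insert_le i ({j} : Set ι)
      rwa [Set.ncard_singleton] at this
    have h7 : Fintype.card J = ({i, j}ᶜ : Set ι).ncard := by
      rw [← Nat.card_eq_fintype_card]; rfl
    omega

/-- `n(k, d) + 2 ≤ n(k, d + 1)` for `d ≥ 9 k`. -/
theorem le_succ {k d : ℕ} (hk : 3 ≤ k) (hd : 9 * k ≤ d) :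
    nDiv k d + 2 ≤ nDiv k (d + 1) := by
  classical
  obtain ⟨ι, _, E, _, _, _, v, h, hE, hcard, h1, hinj, hfc, hb⟩ :=
    exists_extremal (k := k) (d := d) (by omega) (by omega)
  have h2 := le_nDiv (k := k) (d := d) (by omega) (by omega)
  obtain ⟨L, p, q, α, β, φ, hL, hP, hz⟩ := exists_pairs (v := v) hb hfc (by omega)
    (N := 4 * k - 2) (by omega)
  obtain ⟨F, hFL, hF, hcnt⟩ := exists_full3 (zz v p q α β) L
  have hLc : {i | zz v p q α β i ∈ L}.ncard = 4 * k - 2 := by
    have : {i | zz v p q α β i ∈ L} = Set.univ := Set.eq_univ_of_forall hz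
    rw [this, Set.ncard_univ, Nat.card_eq_fintype_card, Fintype.card_fin]
  rw [hLc] at hcnt
  have hzpos : ∀ i, 0 < h (zz v p q α β i) := by
    intro i
    unfold zz
    rw [map_add, map_smul, map_smul, h1, h1]
    have h3 := hP.hα i
    have h4 := hP.hβ i
    simp only [smul_eq_mul, mul_one]
    positivity
  obtain ⟨i, hi⟩ : ∃ i, zz v p q α β i ∈ F := by
    have : 0 < {i | zz v p q α β i ∈ F}.ncard := by omega
    exact (Set.ncard_pos (Set.toFinite _)).1 this
  have hF1 : 1 ≤ finrank ℝ F := by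
    by_contra h0
    have h3 : F = ⊥ := Submodule.finrank_eq_zero.1 (by omega)
    rw [h3, Submodule.mem_bot] at hi
    have h4 := hzpos i
    rw [hi, map_zero] at h4
    exact lt_irrefl _ h4
  have hFk : k + 1 ≤ {i | zz v p q α β i ∈ F}.ncard := by omega
  obtain ⟨z, hzF, hz2, hgen⟩ := exists_generic_vec v h (F := F) ⟨_, hi, (hzpos i).ne'⟩
  have h5 := card_lt_nDiv (v := dup v z) (k := k) (d := d + 1) (by omega) (by
      rw [Module.finrank_prod, hE, finrank_self]) (h.comp (LinearMap.fst ℝ E ℝ)) (by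
      rintro (l | b)
      · exact h1 l
      · change h ((1 / 2 : ℝ) • z) = 1
        rw [map_smul, hz2, smul_eq_mul]
        norm_num) (inj_dup hinj z) (fc_dup hP hFk hfc hzF hgen) (bdd_dup hP hb hF hzF)
  rw [Fintype.card_sum, Fintype.card_bool] at h5
  omega

/-- `n(k, d) = 2 d + c` for all `d ≥ 9 k`. -/
theorem eventually {k : ℕ} (hk : 3 ≤ k) : ∃ c : ℕ, 2 ≤ c ∧ c ≤ k + 2 ∧
    ∀ d, 9 * k ≤ d → nDiv k d = 2 * d + c := by
  have h1 := le_nDiv (k := k) (d := 9 * k) (by omega) (by omega)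
  have h2 := nDiv_le (k := k) (d := 9 * k) (by omega)
  refine ⟨nDiv k (9 * k) - 2 * (9 * k), by omega, by omega, ?_⟩
  intro d hd
  induction d, hd using Nat.le_induction with
  | base => omega
  | succ d hd ih =>
    have h3 := succ_le (k := k) (d := d) (by omega) (by omega)
    have h4 := le_succ (k := k) (d := d) hk hd
    omega

end H30.EV
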