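import Pool.Agent.H30.EV.Defs

/-! Maximal signed vectors: everything outside the span `U = sp v (A ∪ B)` is a direct sum of positive circuits. -/

set_option linter.unusedSectionVars false

open Module Submodule H15

namespace H30.EV

variable {ι : Type*} [Fintype ι] {E : Type*} [AddCommGroup E] [Module ℝ E]
  [FiniteDimensional ℝ E] {v : ι → E} {A B : Set ι} {m k : ℕ}

/-- a signed vector of maximal rank with independent sides (no cosimplicity). -/
theorem exists_max (hb : Bdd v k) : ∃ m A B, m ≤ k ∧ Bdd v m ∧ SVec v A B ∧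
    finrank ℝ (LL v A B) = m ∧ LinearIndepOn ℝ v A ∧ LinearIndepOn ℝ v B := by
  classical
  let P : ℕ → Prop := fun m => ∃ X Y, SVec v X Y ∧ finrank ℝ (LL v X Y) = m
  have h0 : ∃ m, P m := ⟨_, ∅, ∅, svec_empty, rfl⟩
  have hbd : ∀ m, P m → m ≤ k := by
    rintro m ⟨X, Y, h, rfl⟩
    exact hb X Y h
  obtain ⟨m0, hm0⟩ := h0
  obtain ⟨X, Y, hXY, hr⟩ := Nat.findGreatest_spec (P := P) (hbd m0 hm0) hm0
  obtain ⟨A, B, hA, hB, hAB, hiA, hiB, hL⟩ := hXY.frame
  refine ⟨Nat.findGreatest P k, A, B, Nat.findGreatest_le k, ?_, hAB, by rw [hL]; exact hr,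
    hiA, hiB⟩
  intro X' Y' h'
  exact Nat.le_findGreatest (hbd _ ⟨X', Y', h', rfl⟩) ⟨X', Y', h', rfl⟩

/-- adding the sign classes of a relation modulo the span does not change `LL` at the maximum. -/
theorem LL_ext_eq (hb : Bdd v m) (h : SVec v A B) (hm : finrank ℝ (LL v A B) = m) {c : ι → ℝ}
    (hc : ∑ i, c i • v i ∈ sp v (A ∪ B)) :
    LL v (A ∪ {i | 0 < c i ∧ i ∉ B}) (B ∪ {i | c i < 0 ∧ i ∉ A}) = LL v A B := by
  symm
  refine Submodule.eq_of_le_of_finrank_le ?_ ?_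
  · exact inf_le_inf (sp_mono Set.subset_union_left) (sp_mono Set.subset_union_left)
  · rw [hm]
    exact hb _ _ (h.ext c hc)

theorem sum_split (v : ι → E) (c : ι → ℝ) :
    ∑ i, c i • v i = ∑ i, (max (c i) 0) • v i - ∑ i, (max (- c i) 0) • v i := by
  rw [← Finset.sum_sub_distrib]
  refine Finset.sum_congr rfl fun i _ => ?_
  rw [← sub_smul]
  congr 1
  rcases le_total 0 (c i) with h | h
  · rw [max_eq_left h, max_eq_right (by linarith)]; ring
  · rw [max_eq_right h, max_eq_left (by linarith)]; ring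

/-- `c` is a dependency modulo `U` outside `A ∪ B`: so is its positive part
(`SVec.ext`: `LL v (A ∪ {c > 0}) (B ∪ {c < 0}) = LL v A B`). -/
theorem pos_part_mem (hb : Bdd v m) (h : SVec v A B) (hm : finrank ℝ (LL v A B) = m) {c : ι → ℝ}
    (hc : ∑ i, c i • v i ∈ sp v (A ∪ B)) (h0 : ∀ i ∈ A ∪ B, c i = 0) :
    ∑ i, (max (c i) 0) • v i ∈ sp v (A ∪ B) := by
  have hL := LL_ext_eq hb h hm hc
  have hc' := hc
  rw [sp_union, Submodule.mem_sup] at hc'
  obtain ⟨a, ha, b, hb', hab⟩ := hc'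
  have hpos : ∑ i, (max (c i) 0) • v i ∈ sp v (A ∪ {i | 0 < c i ∧ i ∉ B}) := by
    refine Submodule.sum_mem _ fun i _ => ?_
    rcases le_or_gt (c i) 0 with hi | hi
    · rw [max_eq_right hi, zero_smul]
      exact Submodule.zero_mem _
    · refine Submodule.smul_mem _ _ (mem_sp (Or.inr ⟨hi, fun hiB => ?_⟩))
      exact hi.ne' (h0 i (Or.inr hiB))
  have hneg : ∑ i, (max (- c i) 0) • v i ∈ sp v (B ∪ {i | c i < 0 ∧ i ∉ A}) := by
    refine Submodule.sum_mem _ fun i _ => ?_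
    rcases le_or_gt 0 (c i) with hi | hi
    · rw [max_eq_right (by linarith), zero_smul]
      exact Submodule.zero_mem _
    · refine Submodule.smul_mem _ _ (mem_sp (Or.inr ⟨hi, fun hiA => ?_⟩))
      exact hi.ne (h0 i (Or.inl hiA))
  have hs := sum_split v c
  have hx : ∑ i, (max (c i) 0) • v i - a = ∑ i, (max (- c i) 0) • v i + b := by
    rw [hs] at hab
    rw [sub_eq_iff_eq_add, add_assoc, add_comm b a, hab]
    abel
  have hmem : ∑ i, (max (c i) 0) • v i - a ∈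
      LL v (A ∪ {i | 0 < c i ∧ i ∉ B}) (B ∪ {i | c i < 0 ∧ i ∉ A}) := by
    refine ⟨Submodule.sub_mem _ hpos (sp_mono Set.subset_union_left ha), ?_⟩
    rw [hx]
    exact Submodule.add_mem _ hneg (sp_mono Set.subset_union_left hb')
  rw [hL] at hmem
  have h1 : ∑ i, (max (c i) 0) • v i = (∑ i, (max (c i) 0) • v i - a) + a := by abel
  rw [h1]
  exact Submodule.add_mem _ (sp_mono Set.subset_union_left hmem.1)
    (sp_mono Set.subset_union_left ha)

/-- one half of `nonneg_mem_LL`. -/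
theorem nonneg_mem_left (hb : Bdd v m) (h : SVec v A B) (hm : finrank ℝ (LL v A B) = m)
    {c : ι → ℝ} (hc : ∑ i, c i • v i ∈ sp v (A ∪ B)) (h0 : ∀ i ∈ A ∪ B, c i = 0)
    (hnn : ∀ i, 0 ≤ c i) : ∑ i, c i • v i ∈ sp v A := by
  have hL := LL_ext_eq hb h hm hc
  have hc' := hc
  rw [sp_union, Submodule.mem_sup] at hc'
  obtain ⟨a, ha, b, hb', hab⟩ := hc'
  have hpos : ∑ i, c i • v i ∈ sp v (A ∪ {i | 0 < c i ∧ i ∉ B}) := by
    refine Submodule.sum_mem _ fun i _ => ?_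
    rcases (hnn i).eq_or_lt with hi | hi
    · rw [← hi, zero_smul]
      exact Submodule.zero_mem _
    · refine Submodule.smul_mem _ _ (mem_sp (Or.inr ⟨hi, fun hiB => ?_⟩))
      exact hi.ne' (h0 i (Or.inr hiB))
  have hx : ∑ i, c i • v i - a = b := by rw [← hab]; abel
  have hmem : ∑ i, c i • v i - a ∈
      LL v (A ∪ {i | 0 < c i ∧ i ∉ B}) (B ∪ {i | c i < 0 ∧ i ∉ A}) := by
    refine ⟨Submodule.sub_mem _ hpos (sp_mono Set.subset_union_left ha), ?_⟩
    rw [hx]
    exact sp_mono Set.subset_union_left hb'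
  rw [hL] at hmem
  have h1 : ∑ i, c i • v i = (∑ i, c i • v i - a) + a := by abel
  rw [h1]
  exact Submodule.add_mem _ hmem.1 ha

/-- a nonnegative dependency modulo `U` outside `A ∪ B` has its sum in `LL v A B`. -/
theorem nonneg_mem_LL (hb : Bdd v m) (h : SVec v A B) (hm : finrank ℝ (LL v A B) = m) {c : ι → ℝ}
    (hc : ∑ i, c i • v i ∈ sp v (A ∪ B)) (h0 : ∀ i ∈ A ∪ B, c i = 0) (hnn : ∀ i, 0 ≤ c i) :
    ∑ i, c i • v i ∈ LL v A B := by
  refine ⟨nonneg_mem_left hb h hm hc h0 hnn, ?_⟩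
  have hm' : finrank ℝ (LL v B A) = m := by rw [LL_comm]; exact hm
  exact nonneg_mem_left hb h.symm hm' (by rwa [Set.union_comm]) (by rwa [Set.union_comm]) hnn

end H30.EV
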