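import Pool.Agent.H30.EV.Max
import Pool.Agent.H30.EV.Lattice
import Pool.Agent.H15.EV.Struct

/-! Structure theorem: a large family with bounded `k` has `finrank E - 5 k - 2` antipodal series pairs
over a subspace of dimension at most `k`. -/

set_option linter.unusedSectionVars false

open Module Submodule H15

namespace H30.EV

variable {ι : Type*} [Fintype ι] {E : Type*} [AddCommGroup E] [Module ℝ E]
  [FiniteDimensional ℝ E] {v : ι → E} {k : ℕ}

/-- functionals from proportional coordinates: `LinearMap.range_dualMap_eq_dualAnnihilator_ker`. -/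
theorem exists_functional (g : ι → ℝ) (hg : ∀ c : ι → ℝ, ∑ i, c i • v i = 0 → ∑ i, c i * g i = 0) :
    ∃ φ : E →ₗ[ℝ] ℝ, ∀ i, φ (v i) = g i :=
  H15.EV.exists_functional g hg

/-- the structure theorem. `exists_max` gives `(A, B)`, `U = sp v (A ∪ B)`, `L = LL v A B`;
`Q = {i | v i ∉ U}`, `V = {c | c = 0 outside Q, ∑ c i • v i ∈ U}`; `#Qᶜ ≤ dim U + m + (k + m)`
(`mem_LL_of_max`, fc of `L`), `finrank V ≥ #Q - (finrank E - dim U)`; then `exists_two`. -/
theorem exists_pairs (hb : Bdd v k)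
    (hfc : ∀ G : Submodule ℝ E, finrank ℝ G ≤ k + 1 → {i | v i ∈ G}.ncard ≤ k + finrank ℝ G)
    (hcard : 2 * finrank ℝ E ≤ Fintype.card ι + 1) {N : ℕ} (hN : 5 * k + 2 + N ≤ finrank ℝ E) :
    ∃ (L : Submodule ℝ E) (p q : Fin N → ι) (α β : Fin N → ℝ) (φ : Fin N → (E →ₗ[ℝ] ℝ)),
      finrank ℝ L ≤ k ∧ Pairs v p q α β φ ∧ ∀ i, zz v p q α β i ∈ L :=
  H15.EV.exists_pairs hb hfc hcard hN

end H30.EV
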