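import Pool.Agent.H15.FamBasic

/-!
Rank form of the matroid union theorem for three contractions of one vector family.
-/

set_option linter.unusedSectionVars false

open Module Submodule

namespace H30.EV

open H15

variable {ι : Type*} [Fintype ι] {E : Type*} [AddCommGroup E] [Module ℝ E] [FiniteDimensional ℝ E]

/-- submodularity of the rank, with an additional subspace `P` on one side. -/
private theorem submod (v : ι → E) (A P : Submodule ℝ E) (X Y : Set ι) :
    finrank ℝ (A ⊔ P ⊔ sp v (X ∪ Y) : Submodule ℝ E) + finrank ℝ (A ⊔ sp v (X ∩ Y) : Submodule ℝ E) ≤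
      finrank ℝ (A ⊔ P ⊔ sp v X : Submodule ℝ E) + finrank ℝ (A ⊔ sp v Y : Submodule ℝ E) := by
  have h1 := Submodule.finrank_sup_add_finrank_inf_eq (A ⊔ P ⊔ sp v X) (A ⊔ sp v Y)
  have h2 : (A ⊔ P ⊔ sp v X) ⊔ (A ⊔ sp v Y) = A ⊔ P ⊔ sp v (X ∪ Y) := by
    rw [sp_union]
    apply le_antisymm
    · refine sup_le (sup_le le_sup_left ?_) (sup_le ?_ ?_)
      · exact le_sup_of_le_right le_sup_left
      · exact le_sup_of_le_left le_sup_left
      · exact le_sup_of_le_right le_sup_right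
    · refine sup_le (le_sup_of_le_left le_sup_left) (sup_le ?_ ?_)
      · exact le_sup_of_le_left le_sup_right
      · exact le_sup_of_le_right le_sup_right
  have h3 : A ⊔ sp v (X ∩ Y) ≤ (A ⊔ P ⊔ sp v X) ⊓ (A ⊔ sp v Y) :=
    le_inf (sup_le (le_sup_of_le_left le_sup_left)
      (le_sup_of_le_right (sp_mono Set.inter_subset_left)))
      (sup_le_sup_left (sp_mono Set.inter_subset_right) _)
  have h4 := finrank_mono (R := ℝ) h3
  rw [h2] at h1
  omega

/-- matroid union for three copies, rank form. -/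
theorem union_rank3 [DecidableEq ι] (v : ι → E) : ∀ (n : ℕ) (I : Finset ι), I.card = n →
    ∀ A B C : Submodule ℝ E, ∃ X Y W Z : Finset ι, Disjoint X Y ∧ Disjoint X W ∧ Disjoint Y W ∧
      X ∪ Y ∪ W = I ∧ Z ⊆ I ∧
      finrank ℝ (A ⊔ sp v Z : Submodule ℝ E) + finrank ℝ (B ⊔ sp v Z : Submodule ℝ E) +
        finrank ℝ (C ⊔ sp v Z : Submodule ℝ E) + (I \ Z).card ≤
      finrank ℝ (A ⊔ sp v X : Submodule ℝ E) + finrank ℝ (B ⊔ sp v Y : Submodule ℝ E) +
        finrank ℝ (C ⊔ sp v W : Submodule ℝ E) := by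
  intro n
  induction n with
  | zero =>
    intro I hI A B C
    rw [Finset.card_eq_zero] at hI
    subst hI
    exact ⟨∅, ∅, ∅, ∅, by simp, by simp, by simp, by simp, by simp, by simp⟩
  | succ n ih =>
    intro I hI A B C
    have hne : I.Nonempty := by rw [← Finset.card_pos]; omega
    obtain ⟨e, he⟩ := hne
    have hc : (I.erase e).card = n := by rw [Finset.card_erase_of_mem he]; omega
    obtain ⟨X1, Y1, W1, Z1, d1, d1', d1'', u1, s1, g1⟩ := ih (I.erase e) hc (A ⊔ span ℝ {v e}) B C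
    obtain ⟨X2, Y2, W2, Z2, d2, d2', d2'', u2, s2, g2⟩ := ih (I.erase e) hc A (B ⊔ span ℝ {v e}) C
    obtain ⟨X3, Y3, W3, Z3, d3, d3', d3'', u3, s3, g3⟩ := ih (I.erase e) hc A B (C ⊔ span ℝ {v e})
    have hnot : ∀ {Q : Finset ι}, Q ⊆ I.erase e → e ∉ Q := fun hQ h => Finset.notMem_erase e I (hQ h)
    have hins : ∀ (F : Submodule ℝ E) (Q : Finset ι),
        F ⊔ sp v ((insert e Q : Finset ι) : Set ι) = F ⊔ span ℝ {v e} ⊔ sp v (Q : Set ι) := by
      intro F Q
      rw [Finset.coe_insert, sp_insert, sup_assoc]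
    by_contra hcon
    push Not at hcon
    have hX1 : X1 ⊆ I.erase e := u1 ▸ (Finset.subset_union_left.trans Finset.subset_union_left)
    have hY1 : Y1 ⊆ I.erase e := u1 ▸ (Finset.subset_union_right.trans Finset.subset_union_left)
    have hW1 : W1 ⊆ I.erase e := u1 ▸ Finset.subset_union_right
    have hX2 : X2 ⊆ I.erase e := u2 ▸ (Finset.subset_union_left.trans Finset.subset_union_left)
    have hY2 : Y2 ⊆ I.erase e := u2 ▸ (Finset.subset_union_right.trans Finset.subset_union_left)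
    have hW2 : W2 ⊆ I.erase e := u2 ▸ Finset.subset_union_right
    have hX3 : X3 ⊆ I.erase e := u3 ▸ (Finset.subset_union_left.trans Finset.subset_union_left)
    have hY3 : Y3 ⊆ I.erase e := u3 ▸ (Finset.subset_union_right.trans Finset.subset_union_left)
    have hW3 : W3 ⊆ I.erase e := u3 ▸ Finset.subset_union_right
    have hu1 : insert e X1 ∪ Y1 ∪ W1 = I := by
      rw [Finset.insert_union, Finset.insert_union, u1, Finset.insert_erase he]
    have hu2 : X2 ∪ insert e Y2 ∪ W2 = I := by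
      rw [Finset.union_insert, Finset.insert_union, u2, Finset.insert_erase he]
    have hu3 : X3 ∪ Y3 ∪ insert e W3 = I := by
      rw [Finset.union_insert, u3, Finset.insert_erase he]
    have hU : insert e (Z1 ∪ Z2 ∪ Z3) ⊆ I :=
      Finset.insert_subset he ((Finset.union_subset (Finset.union_subset s1 s2) s3).trans
        (Finset.erase_subset _ _))
    have hI1 : Z1 ∩ Z2 ⊆ I := (Finset.inter_subset_left.trans s1).trans (Finset.erase_subset _ _)
    have hI2 : (Z1 ∪ Z2) ∩ Z3 ⊆ I :=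
      (Finset.inter_subset_right.trans s3).trans (Finset.erase_subset _ _)
    have k1 := hcon _ _ _ _ (Finset.disjoint_insert_left.2 ⟨hnot hY1, d1⟩)
      (Finset.disjoint_insert_left.2 ⟨hnot hW1, d1'⟩) d1'' hu1 hU
    have k2 := hcon _ _ _ _ (Finset.disjoint_insert_right.2 ⟨hnot hX2, d2⟩) d2'
      (Finset.disjoint_insert_left.2 ⟨hnot hW2, d2''⟩) hu2 hI1
    have k3 := hcon _ _ _ _ d3 (Finset.disjoint_insert_right.2 ⟨hnot hX3, d3'⟩)
      (Finset.disjoint_insert_right.2 ⟨hnot hY3, d3''⟩) hu3 hI2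
    rw [hins, hins, hins, hins, Finset.coe_union, Finset.coe_union] at k1
    rw [hins, Finset.coe_inter] at k2
    rw [hins, Finset.coe_inter, Finset.coe_union] at k3
    -- the subspace `⊥` on the side
    have e0 : ∀ F : Submodule ℝ E, F ⊔ ⊥ = F := fun F => sup_bot_eq F
    -- first uncrossing: Z1, Z2
    have mA1 := submod v A (span ℝ {v e}) (Z1 : Set ι) (Z2 : Set ι)
    have mB1 := submod v B (span ℝ {v e}) (Z2 : Set ι) (Z1 : Set ι)
    rw [Set.union_comm (Z2 : Set ι), Set.inter_comm (Z2 : Set ι)] at mB1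
    have mC1 := submod v C ⊥ (Z1 : Set ι) (Z2 : Set ι)
    rw [e0] at mC1
    -- second uncrossing: Z1 ∪ Z2, Z3
    have mA2 := submod v A (span ℝ {v e}) ((Z1 : Set ι) ∪ Z2) (Z3 : Set ι)
    have mB2 := submod v B (span ℝ {v e}) ((Z1 : Set ι) ∪ Z2) (Z3 : Set ι)
    have mC2 := submod v C (span ℝ {v e}) (Z3 : Set ι) ((Z1 : Set ι) ∪ Z2)
    rw [Set.union_comm (Z3 : Set ι), Set.inter_comm (Z3 : Set ι)] at mC2
    -- cardinalities
    have c1 : (I \ insert e (Z1 ∪ Z2 ∪ Z3)).card + (Z1 ∪ Z2 ∪ Z3).card = n := by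
      have : I \ insert e (Z1 ∪ Z2 ∪ Z3) = (I.erase e) \ (Z1 ∪ Z2 ∪ Z3) := by
        ext a; simp only [Finset.mem_sdiff, Finset.mem_insert, Finset.mem_erase]; tauto
      rw [this, ← hc]
      exact Finset.card_sdiff_add_card_eq_card (Finset.union_subset (Finset.union_subset s1 s2) s3)
    have c2 : (I \ (Z1 ∩ Z2)).card + (Z1 ∩ Z2).card = n + 1 := by
      rw [← hI]; exact Finset.card_sdiff_add_card_eq_card hI1
    have c2' : (I \ ((Z1 ∪ Z2) ∩ Z3)).card + ((Z1 ∪ Z2) ∩ Z3).card = n + 1 := by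
      rw [← hI]; exact Finset.card_sdiff_add_card_eq_card hI2
    have c3 : (I.erase e \ Z1).card + Z1.card = n := by
      rw [← hc]; exact Finset.card_sdiff_add_card_eq_card s1
    have c4 : (I.erase e \ Z2).card + Z2.card = n := by
      rw [← hc]; exact Finset.card_sdiff_add_card_eq_card s2
    have c5 : (I.erase e \ Z3).card + Z3.card = n := by
      rw [← hc]; exact Finset.card_sdiff_add_card_eq_card s3
    have c6 := Finset.card_union_add_card_inter Z1 Z2
    have c7 := Finset.card_union_add_card_inter (Z1 ∪ Z2) Z3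
    omega

end H30.EV
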